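import Pool.Agent.L0h58.HN.Prog

/-! # Project HN, part GUE: guesses are coins -/

set_option autoImplicit false

namespace Pool.Agent.L0h13.HN

open Finset Pool.Agent.L0h32.LT Pool.Agent.L0h58.HN

variable {n g : ℕ} {V : Type}

open Classical in
/-- the deterministic program with the list `w` of guesses -/
noncomputable def det (P : NBP n V) (w : Fin g → Bool) : BP n (V × Fin (g + 1)) where
  start := (P.start, 0)
  var u := P.var u.1
  next u b := if P.next u.1 b false = P.next u.1 b true then (P.next u.1 b false, u.2)
    else if h : (u.2 : ℕ) < g then (P.next u.1 b (w ⟨u.2, h⟩), ⟨u.2 + 1, by omega⟩) else u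
  out u := P.out u.1

open Classical in
theorem det_step (P : NBP n V) (w : Fin g → Bool) (x : Inp n) (v : V) (i : Fin (g + 1)) :
    (det P w).step x (v, i) = if P.step x v false = P.step x v true then (P.step x v false, i)
    else if h : (i : ℕ) < g then (P.step x v (w ⟨i, h⟩), ⟨i + 1, by omega⟩) else (v, i) := by
  unfold BP.step NBP.step
  by_cases h : (P.out v).isSome
  · have h' : ((det P w).out (v, i)).isSome := h
    simp only [if_pos h', if_pos h]
    rfl
  · have h' : ¬ ((det P w).out (v, i)).isSome := h
    rw [if_neg h']
    simp only [if_neg h]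
    rfl

/-- the genuine steps -/
def gen (P : NBP n V) (x : Inp n) (γ : ℕ → Bool) (t : ℕ) : Prop :=
  P.step x (P.run x γ t) false ≠ P.step x (P.run x γ t) true

open Classical in
theorem to_det (P : NBP n V) (x : Inp n) (γ : ℕ → Bool) (T : ℕ)
    (hT : Nat.count (gen P x γ) T ≤ g) :
    ((det P (fun i : Fin g => γ (Nat.nth (gen P x γ) i))).step x)^[T]
      (det P (fun i : Fin g => γ (Nat.nth (gen P x γ) i))).start =
      (P.run x γ T, ⟨Nat.count (gen P x γ) T, by omega⟩) := by
  induction T with
  | zero =>
    simp only [Function.iterate_zero, id_eq, Nat.count_zero]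
    rfl
  | succ t ih =>
    have hmono : Nat.count (gen P x γ) t ≤ Nat.count (gen P x γ) (t + 1) :=
      Nat.count_monotone _ (Nat.le_succ t)
    rw [Function.iterate_succ_apply', ih (by omega), det_step]
    by_cases hg : gen P x γ t
    · have hc : Nat.count (gen P x γ) (t + 1) = Nat.count (gen P x γ) t + 1 := by
        rw [Nat.count_succ, if_pos hg]
      rw [if_neg hg]
      have hlt : Nat.count (gen P x γ) t < g := by omega
      rw [dif_pos hlt]
      refine Prod.ext ?_ ?_
      · show P.step x (P.run x γ t) (γ (Nat.nth (gen P x γ) (Nat.count (gen P x γ) t))) = _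
        rw [Nat.nth_count hg]
        rfl
      · apply Fin.ext
        exact hc.symm
    · have hc : Nat.count (gen P x γ) (t + 1) = Nat.count (gen P x γ) t := by
        rw [Nat.count_succ, if_neg hg, add_zero]
      unfold gen at hg
      rw [not_not] at hg
      rw [if_pos hg]
      refine Prod.ext ?_ ?_
      · show P.step x (P.run x γ t) false = P.step x (P.run x γ t) (γ t)
        cases γ t
        · rfl
        · exact hg
      · apply Fin.ext
        exact hc.symm

open Classical in
/-- the guesses made by the program with the list `w` -/
noncomputable def gu (P : NBP n V) (w : Fin g → Bool) (x : Inp n) (t : ℕ) : Bool :=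
  if h : (((det P w).step x)^[t] (det P w).start).2.val < g then
    w ⟨_, h⟩ else false

open Classical in
theorem from_det (P : NBP n V) (w : Fin g → Bool) (x : Inp n) (T : ℕ)
    (hT : P.out ((((det P w).step x)^[T] (det P w).start).1) = some true) (t : ℕ) (ht : t ≤ T) :
    P.run x (gu P w x) t = (((det P w).step x)^[t] (det P w).start).1 ∧
      Nat.count (gen P x (gu P w x)) t = (((det P w).step x)^[t] (det P w).start).2 := by
  induction t with
  | zero =>
    constructor
    · rfl
    · simp only [Function.iterate_zero, id_eq, Nat.count_zero]
      rfl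
  | succ t ih =>
    obtain ⟨h1, h2⟩ := ih (by omega)
    have hg : gen P x (gu P w x) t ↔ P.step x (((det P w).step x)^[t] (det P w).start).1 false ≠
        P.step x (((det P w).step x)^[t] (det P w).start).1 true := by
      unfold gen
      rw [h1]
    have hr : P.run x (gu P w x) (t + 1) =
        P.step x (((det P w).step x)^[t] (det P w).start).1 (gu P w x t) := by
      show P.step x (P.run x (gu P w x) t) (gu P w x t) = _
      rw [h1]
    rw [hr, Nat.count_succ, h2, Function.iterate_succ_apply']
    have hgu : gu P w x t = if h : (((det P w).step x)^[t] (det P w).start).2.val < g then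
      w ⟨_, h⟩ else false := rfl
    rw [hgu]
    have hs := det_step P w x (((det P w).step x)^[t] (det P w).start).1
      (((det P w).step x)^[t] (det P w).start).2
    have he : ((((det P w).step x)^[t] (det P w).start).1,
      (((det P w).step x)^[t] (det P w).start).2) = ((det P w).step x)^[t] (det P w).start := rfl
    rw [he] at hs
    by_cases hgt : gen P x (gu P w x) t
    · rw [if_pos hgt]
      have hgt' := hg.1 hgt
      rw [if_neg hgt'] at hs
      by_cases hlt : (((det P w).step x)^[t] (det P w).start).2.val < g
      · rw [dif_pos hlt] at hs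
        rw [dif_pos hlt, hs]
        exact ⟨rfl, rfl⟩
      · exfalso
        rw [dif_neg hlt] at hs
        have hfix : ∀ k, ((det P w).step x)^[t + k] (det P w).start =
            ((det P w).step x)^[t] (det P w).start := by
          intro k
          induction k with
          | zero => rfl
          | succ k ih =>
            rw [← add_assoc, Function.iterate_succ_apply', ih, hs]
        have hTk : T = t + (T - t) := by omega
        rw [hTk, hfix] at hT
        apply hgt'
        unfold NBP.step
        rw [hT]
        simp
    · rw [if_neg hgt]
      rw [hg, not_not] at hgt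
      rw [if_pos hgt] at hs
      rw [hs]
      refine ⟨?_, rfl⟩
      show P.step x _ (if h : (((det P w).step x)^[t] (det P w).start).2.val < g then
        w ⟨_, h⟩ else false) = P.step x _ false
      generalize (if h : (((det P w).step x)^[t] (det P w).start).2.val < g then
        w ⟨_, h⟩ else false) = c
      cases c
      · rfl
      · exact hgt.symm

theorem t_GUE : S_GUE := by
  classical
  rintro n T B g L δ f hB ⟨V, hV, P, hcard, hP⟩ hL
  have h := hB (Fin g → Bool) (fun _ => (1 / 2 : ℝ) ^ g) (fun _ => V × Fin (g + 1))
    (fun w => det P w) (fun _ => by positivity) (by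
      rw [Finset.sum_const, Finset.card_univ, Fintype.card_fun, Fintype.card_bool, Fintype.card_fin,
        nsmul_eq_mul]
      push_cast
      rw [← mul_pow]
      norm_num) (fun w => by
        refine le_trans ?_ hL
        rw [Nat.card_prod, Nat.card_fin]
        exact_mod_cast (by nlinarith [hcard] : Nat.card V * (g + 1) ≤ (g + 1) * B))
    ((1 / 2 : ℝ) ^ g) 0 (pow_le_one₀ (by norm_num) (by norm_num)) le_rfl ?_ ?_
  · rw [sub_zero] at h
    exact h
  · intro x hx
    obtain ⟨γ, h1, h2⟩ := (hP x).1 hx
    have hc : Nat.count (gen P x γ) T ≤ g := by
      rw [Nat.count_eq_card_filter_range]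
      refine le_trans (le_of_eq ?_) h2
      congr 1
      ext k
      rw [mem_filter, mem_filter]
      rfl
    have hacc : (det P (fun i : Fin g => γ (Nat.nth (gen P x γ) i))).Accepts T x := by
      unfold BP.Accepts
      rw [to_det P x γ T hc]
      exact h1
    refine le_trans ?_ (Finset.single_le_sum (f := fun w : Fin g → Bool =>
      if (det P w).Accepts T x then ((1 / 2 : ℝ) ^ g) else 0) (fun w _ => by
        split_ifs
        · positivity
        · exact le_rfl) (Finset.mem_univ (fun i : Fin g => γ (Nat.nth (gen P x γ) i))))
    show ((1 / 2 : ℝ) ^ g) ≤ if _ then ((1 / 2 : ℝ) ^ g) else 0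
    rw [if_pos hacc]
  · intro x hx
    apply le_of_eq
    apply Finset.sum_eq_zero
    intro w _
    rw [if_neg]
    intro hacc
    have h1 := from_det P w x T hacc T le_rfl
    have h2 : P.Accepts T g x := by
      refine ⟨gu P w x, ?_, ?_⟩
      · rw [h1.1]
        exact hacc
      · have h3 := h1.2
        rw [Nat.count_eq_card_filter_range] at h3
        have h4 : ((((det P w).step x)^[T] (det P w).start).2 : ℕ) ≤ g := by
          have := (((det P w).step x)^[T] (det P w).start).2.isLt
          omega
        rw [← h3] at h4
        refine le_trans (le_of_eq ?_) h4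
        congr 1
        ext k
        rw [mem_filter, mem_filter]
        rfl
    rw [(hP x).2 h2] at hx
    cases hx

end Pool.Agent.L0h13.HN
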