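import Pool.Agent.L0h58.HN.Prog

/-! # Project HN, part SIM: one-pass programs are programs -/

set_option autoImplicit false

namespace Pool.Agent.L0h13.HN

open Finset Pool.Agent.L0h32.LT Pool.Agent.L0h58.HN

variable {n g : ℕ} {V : Type}

/-- the nodes: first the guesses are collected, then the one-pass program runs -/
abbrev Nod (n g : ℕ) (V : Type) : Type := (Fin (g + 1) × (Fin g → Bool)) ⊕ (Fin (n + 1) × V)

open Classical in
/-- the program -/
noncomputable def sim (hn : 1 ≤ n) (start : (Fin g → Bool) → V) (next : Fin n → V → Bool → V)
    (acc : V → Prop) : NBP n (Nod n g V) where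
  start := Sum.inl (0, fun _ => false)
  var u := match u with
    | Sum.inl _ => ⟨0, hn⟩
    | Sum.inr (i, _) => if h : (i : ℕ) < n then ⟨i, h⟩ else ⟨0, hn⟩
  next u b c := match u with
    | Sum.inl (i, w) => if h : (i : ℕ) < g then
        Sum.inl (⟨i + 1, by omega⟩, Function.update w ⟨i, h⟩ c) else Sum.inr (0, start w)
    | Sum.inr (i, v) => if h : (i : ℕ) < n then Sum.inr (⟨i + 1, by omega⟩, next ⟨i, h⟩ v b)
        else Sum.inr (i, v)
  out u := match u with
    | Sum.inl _ => none
    | Sum.inr (i, v) => if (i : ℕ) < n then none else some (decide (acc v))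

section

variable (hn : 1 ≤ n) (start : (Fin g → Bool) → V) (next : Fin n → V → Bool → V)
  (acc : V → Prop) (x : Inp n) (γ : ℕ → Bool)

/-- the collected guesses -/
def col (g : ℕ) (γ : ℕ → Bool) (t : ℕ) : Fin g → Bool := fun i => if (i : ℕ) < t then γ i else false

theorem run_le (t : ℕ) (ht : t ≤ g) : (sim hn start next acc).run x γ t =
    Sum.inl (⟨t, by omega⟩, col g γ t) := by
  induction t with
  | zero =>
    show Sum.inl _ = Sum.inl _
    congr 1
  | succ t ih =>
    have h1 : (sim hn start next acc).run x γ (t + 1) =
        (sim hn start next acc).step x ((sim hn start next acc).run x γ t) (γ t) := rfl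
    have hlt : t < g := by omega
    rw [h1, ih (by omega)]
    show (if h : t < g then (Sum.inl (⟨t + 1, by omega⟩, Function.update (col g γ t) ⟨t, h⟩ (γ t)) :
      Nod n g V) else Sum.inr (0, start (col g γ t))) = _
    rw [dif_pos hlt]
    congr 2
    funext i
    unfold col
    by_cases hi : i = ⟨t, hlt⟩
    · rw [hi, Function.update_self]
      simp
    · rw [Function.update_of_ne hi]
      have hi' : (i : ℕ) ≠ t := fun h => hi (Fin.ext h)
      by_cases h2 : (i : ℕ) < t
      · rw [if_pos h2, if_pos (by omega)]
      · rw [if_neg h2, if_neg (by omega)]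

/-- the node of the one-pass program after `j` steps -/
def W (next : Fin n → V → Bool → V) (x : Inp n) (v : V) : ℕ → V
  | 0 => v
  | j + 1 => if h : j < n then next ⟨j, h⟩ (W next x v j) (x ⟨j, h⟩) else W next x v j

theorem run_gt (j : ℕ) (hj : j ≤ n) : (sim hn start next acc).run x γ (g + 1 + j) =
    Sum.inr (⟨j, by omega⟩, W next x (start fun i => γ i) j) := by
  induction j with
  | zero =>
    have h1 : (sim hn start next acc).run x γ (g + 1 + 0) =
        (sim hn start next acc).step x ((sim hn start next acc).run x γ g) (γ g) := rfl
    rw [h1, run_le hn start next acc x γ g le_rfl]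
    show (if h : g < g then (Sum.inl (⟨g + 1, by omega⟩, Function.update (col g γ g) ⟨g, h⟩ (γ g)) :
      Nod n g V) else Sum.inr (0, start (col g γ g))) = _
    rw [dif_neg (lt_irrefl g)]
    have h2 : col g γ g = fun i : Fin g => γ i := by
      funext i
      unfold col
      rw [if_pos i.isLt]
    rw [h2]
    rfl
  | succ j ih =>
    have h1 : (sim hn start next acc).run x γ (g + 1 + (j + 1)) =
        (sim hn start next acc).step x ((sim hn start next acc).run x γ (g + 1 + j))
          (γ (g + 1 + j)) := rfl
    have hlt : j < n := by omega
    rw [h1, ih (by omega)]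
    unfold NBP.step
    have ho : ((sim hn start next acc).out (Sum.inr (⟨j, by omega⟩,
        W next x (start fun i => γ i) j))) = none := by
      show (if j < n then none else _) = none
      rw [if_pos hlt]
    rw [ho]
    simp only [Option.isSome_none, Bool.false_eq_true, if_false]
    show (if h : j < n then (Sum.inr (⟨j + 1, by omega⟩, next ⟨j, h⟩ (W next x (start fun i => γ i) j)
      (x (if h : j < n then ⟨j, h⟩ else ⟨0, hn⟩))) : Nod n g V) else _) = _
    rw [dif_pos hlt]
    congr 2
    show _ = if h : j < n then next ⟨j, h⟩ (W next x (start fun i => γ i) j) (x ⟨j, h⟩) else _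
    rw [dif_pos hlt, dif_pos hlt]

theorem fold_eq (v : V) (m : ℕ) (hm : m ≤ n) :
    ((List.finRange m).map (Fin.castLE hm)).foldl (fun v i => next i v (x i)) v =
      W next x v m := by
  induction m with
  | zero => rfl
  | succ m ih =>
    have hlt : m < n := by omega
    rw [List.finRange_succ_last, List.map_append, List.foldl_append, List.map_map]
    have h1 : (Fin.castLE hm) ∘ Fin.castSucc = Fin.castLE (by omega : m ≤ n) := rfl
    rw [h1, ih (by omega)]
    show next _ _ _ = if h : m < n then next ⟨m, h⟩ (W next x v m) (x ⟨m, h⟩) else _
    rw [dif_pos hlt]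
    rfl

end

theorem t_SIM : S_SIM := by
  classical
  rintro n g B f hn ⟨V, hV, start, next, acc, hcard, hf⟩
  refine ⟨Nod n g V, inferInstance, sim hn start next acc, ?_, ?_⟩
  · rw [Nat.card_sum, Nat.card_prod, Nat.card_prod, Nat.card_fin, Nat.card_fin]
    have h1 : Nat.card (Fin g → Bool) = 2 ^ g := by
      rw [Nat.card_eq_fintype_card, Fintype.card_fun, Fintype.card_bool, Fintype.card_fin]
    rw [h1]
    exact Nat.add_le_add_left (Nat.mul_le_mul_left _ hcard) _
  · intro x
    have hT : n + g + 1 = g + 1 + n := by omega
    have key : ∀ γ : ℕ → Bool,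
        ((sim hn start next acc).out ((sim hn start next acc).run x γ (n + g + 1)) = some true ↔
          acc ((List.finRange n).foldl (fun v i => next i v (x i)) (start fun i : Fin g => γ i))) := by
      intro γ
      rw [hT, run_gt hn start next acc x γ n le_rfl]
      have h1 := fold_eq next x (start fun i : Fin g => γ i) n le_rfl
      have h2 : (List.finRange n).map (Fin.castLE (le_refl n)) = List.finRange n := by
        rw [show Fin.castLE (le_refl n) = id from rfl, List.map_id]
      rw [h2] at h1
      rw [h1]
      show (if n < n then none else some (decide (acc _))) = some true ↔ _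
      rw [if_neg (lt_irrefl n)]
      simp
    rw [hf x]
    constructor
    · rintro ⟨ω, hω⟩
      refine ⟨fun t => if h : t < g then ω ⟨t, h⟩ else false, ?_, ?_⟩
      · rw [key]
        have : (fun i : Fin g => (if h : (i : ℕ) < g then ω ⟨i, h⟩ else false)) = ω := by
          funext i
          rw [dif_pos i.isLt]
        rw [this]
        exact hω
      · have hsub : ((range (n + g + 1)).filter fun t =>
            (sim hn start next acc).step x ((sim hn start next acc).run x
              (fun t => if h : t < g then ω ⟨t, h⟩ else false) t) false ≠
            (sim hn start next acc).step x ((sim hn start next acc).run x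
              (fun t => if h : t < g then ω ⟨t, h⟩ else false) t) true) ⊆ range g := by
          intro t ht
          rw [mem_filter] at ht
          obtain ⟨ht1, ht2⟩ := ht
          rw [mem_range]
          by_contra hlt
          apply ht2
          rcases Nat.lt_or_ge g t with h | h
          · obtain ⟨j, rfl⟩ : ∃ j, t = g + 1 + j := ⟨t - (g + 1), by omega⟩
            rw [mem_range] at ht1
            rw [run_gt hn start next acc x _ j (by omega)]
            rfl
          · have : t = g := by omega
            subst this
            rw [run_le hn start next acc x _ t le_rfl]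
            show (if h : t < t then (Sum.inl _ : Nod n t V) else _) =
              (if h : t < t then (Sum.inl _ : Nod n t V) else _)
            rw [dif_neg (lt_irrefl t), dif_neg (lt_irrefl t)]
        refine le_trans (le_of_eq ?_) ((card_le_card hsub).trans_eq (card_range g))
        congr 1
        ext k
        simp only [mem_filter]
    · rintro ⟨γ, hγ, -⟩
      exact ⟨_, (key γ).1 hγ⟩

end Pool.Agent.L0h13.HN
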